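import Pool.Agent.N422.NWS.Stm
import Pool.Agent.N422.NW.JEN

/-! Project NWS, package SITE: one site. -/

set_option autoImplicit false

open Finset

namespace Pool.Agent.U692.NWS

open Pool.Agent.N422.NW Pool.Agent.N422.NWS

lemma agree {N L : ℕ} (win : Fin N → ℕ) (hwin : ∀ i, win i < L) (T T' : Finset (Fin N))
    (h : ∀ l ∈ range L, Tl win T' l = Tl win T l) : T' = T := by
  ext i
  have h1 := h (win i) (mem_range.2 (hwin i))
  have h2 : i ∈ Tl win T' (win i) ↔ i ∈ Tl win T (win i) := by rw [h1]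
  simpa [Tl] using h2

lemma cz_exp (t : ℝ) (x : ℕ) : cz t x ((Real.exp (-t) : ℝ) : ℂ) = 0 := by
  have h : Real.cosh (x * t) = ((Real.exp (-t)) ^ x + ((Real.exp (-t))⁻¹) ^ x) / 2 := by
    rw [Real.cosh_eq, ← Real.exp_neg, ← Real.exp_nat_mul, ← Real.exp_nat_mul]
    ring_nf
  unfold cz
  rw [h]
  push_cast
  ring

lemma cz_cr (t : ℝ) (x : ℕ) {z : ℂ} (hz : ‖z‖ = 1) : cz t x z = ((cr t x z : ℝ) : ℂ) := by
  unfold cz cr
  rw [Complex.inv_eq_conj hz, ← map_pow, Complex.add_conj]
  push_cast
  ring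

lemma th_cast {m : ℕ} (κ : ℝ) (c : ℕ → ℝ) (v : ℕ) (hs : Fin m → ℕ) (p : Fin m → ℝ)
    (a : Finset (Fin m) → ℝ) (X : Finset (Fin m)) :
    th (κ : ℂ) (fun x => (c x : ℂ)) v hs (fun i => (p i : ℂ)) (fun A => (a A : ℂ)) X =
      ((th κ c v hs p a X : ℝ) : ℂ) := by
  unfold th ee
  push_cast
  congr 1
  refine sum_congr rfl fun A _ => ?_
  congr 1
  refine prod_congr rfl fun c _ => ?_
  split_ifs <;> simp

lemma KW_cast {N m : ℕ} (win : Fin N → ℕ) (cel : Fin N → Fin m) (u : Fin N → ℝ) (L : ℕ)
    (σ : ℕ → ℝ) (θ : ℕ → Finset (Fin m) → ℝ) (T T' : Finset (Fin N)) :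
    KW win cel (fun i => (u i : ℂ)) L (fun l => (σ l : ℂ)) (fun l X => (θ l X : ℂ)) T T' =
      ((KW win cel u L σ θ T T' : ℝ) : ℂ) := by
  unfold KW
  rw [Complex.ofReal_prod]
  refine prod_congr rfl fun l _ => ?_
  have hm : mW win (fun i => (u i : ℂ)) l T' = ((mW win u l T' : ℝ) : ℂ) := by
    unfold mW
    rw [Complex.ofReal_prod]
    refine prod_congr rfl fun i _ => ?_
    split_ifs <;> push_cast <;> rfl
  rw [hm]
  split_ifs <;> push_cast <;> ring

lemma mW_nonneg {N : ℕ} (win : Fin N → ℕ) (u : Fin N → ℝ) (hu : ∀ i, 0 ≤ u i ∧ u i ≤ 1 / 2) (l : ℕ)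
    (T : Finset (Fin N)) : 0 ≤ mW win u l T := by
  unfold mW
  refine prod_nonneg fun i _ => ?_
  split_ifs
  · exact (hu i).1
  · linarith [(hu i).2]

lemma KW_nonneg {N m : ℕ} (win : Fin N → ℕ) (cel : Fin N → Fin m) (u : Fin N → ℝ) (L : ℕ)
    (σ : ℕ → ℝ) (θ : ℕ → Finset (Fin m) → ℝ) (hu : ∀ i, 0 ≤ u i ∧ u i ≤ 1 / 2)
    (hσ : ∀ l < L, σ l ≤ 1) (hθ : ∀ l < L, ∀ X, 0 ≤ θ l X) (T T' : Finset (Fin N)) :
    0 ≤ KW win cel u L σ θ T T' := by
  unfold KW
  refine prod_nonneg fun l hl => ?_
  have hl' := mem_range.1 hl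
  have h1 := mul_nonneg (mW_nonneg win u hu l T') (hθ l hl' ((Tl win T' l).image cel))
  have h2 := hσ l hl'
  split_ifs
  · nlinarith
  · nlinarith
  · norm_num
  · norm_num

lemma pc_nonneg {N m : ℕ} (win : Fin N → ℕ) (cel : Fin N → Fin m) (u : Fin N → ℝ)
    (hu : ∀ i, 0 ≤ u i ∧ u i ≤ 1 / 2) (l : ℕ) (c : Fin m) : 0 ≤ pc win cel u l c := by
  unfold pc
  rw [sub_nonneg]
  refine prod_le_one (fun i _ => ?_) fun i _ => ?_
  · linarith [(hu i).2]
  · linarith [(hu i).1]

lemma tele (G g : ℕ → ℝ) (L : ℕ) (h : ∀ l, l + 1 < L → g (l + 1) ≤ G l) :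
    ∀ n, n < L → - g 0 ≤ ∑ l ∈ range n, (G l - g l) - g n := by
  intro n
  induction n with
  | zero => intro _; simp
  | succ n ih =>
    intro hn
    have h1 := ih (by omega)
    have h2 := h n hn
    rw [sum_range_succ]
    linarith

/-- the combinatorial part of the lower bound -/
lemma low {N m L : ℕ} (win : Fin N → ℕ) (cel : Fin N → Fin m) (hL : 1 ≤ L) (hwin : ∀ i, win i < L)
    (G g : ℕ → ℝ) (h : ∀ l, l + 1 < L → g (l + 1) ≤ G l) (T : Finset (Fin N)) (b : ℕ → ℝ)
    (hb : ∀ l < L, (∀ i ∈ T, l ≤ win i) →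
      (if (Tl win T l).image cel = ∅ then G l else 0) - g l ≤ b l)
    (hb' : ∀ l < L, ¬ (∀ i ∈ T, l ≤ win i) → 0 ≤ b l) :
    (if T = ∅ then G (L - 1) else 0) - g 0 ≤ ∑ l ∈ range L, b l := by
  rcases T.eq_empty_or_nonempty with rfl | hT
  · obtain ⟨n, rfl⟩ : ∃ n, L = n + 1 := ⟨L - 1, by omega⟩
    have h1 := tele G g (n + 1) h n (by omega)
    have h2 : ∑ l ∈ range (n + 1), (G l - g l) ≤ ∑ l ∈ range (n + 1), b l := by
      refine sum_le_sum fun l hl => ?_
      have := hb l (mem_range.1 hl) (by simp)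
      simpa [Tl] using this
    rw [sum_range_succ] at h2
    simp only [if_true, Nat.add_sub_cancel]
    linarith
  · obtain ⟨i0, hi0, hmin⟩ := T.exists_min_image win hT
    set n := win i0 with hn
    have hnL : n < L := hwin i0
    have hne : T ≠ ∅ := hT.ne_empty
    have h1 := tele G g L h n hnL
    have h2 : ∑ l ∈ range n, (G l - g l) ≤ ∑ l ∈ range n, b l := by
      refine sum_le_sum fun l hl => ?_
      have hl' := mem_range.1 hl
      have hX : (Tl win T l).image cel = ∅ := by
        rw [image_eq_empty]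
        unfold Tl
        rw [filter_eq_empty_iff]
        intro i hi h3
        have := hmin i hi
        omega
      have := hb l (by omega) (fun i hi => by have := hmin i hi; omega)
      rw [if_pos hX] at this
      exact this
    have h3 : - g n ≤ b n := by
      have hX : (Tl win T n).image cel ≠ ∅ := by
        rw [Ne, image_eq_empty]
        exact Finset.Nonempty.ne_empty ⟨i0, by simp [Tl, hi0, hn]⟩
      have := hb n hnL (fun i hi => hmin i hi)
      rw [if_neg hX] at this
      linarith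
    have h4 : ∑ l ∈ range (n + 1), b l ≤ ∑ l ∈ range L, b l := by
      refine sum_le_sum_of_subset_of_nonneg (fun x hx => ?_) fun l hl hl2 => ?_
      · rw [mem_range] at *
        omega
      · rw [mem_range] at *
        refine hb' l hl fun h5 => ?_
        have := h5 i0 hi0
        omega
    rw [sum_range_succ] at h4
    rw [if_neg hne]
    linarith

lemma th_zero {K : Type} [Field K] {m : ℕ} (κ : K) (v : ℕ) (hs : Fin m → ℕ) (p : Fin m → K)
    (a : Finset (Fin m) → K) (X : Finset (Fin m)) : th κ (fun _ => 0) v hs p a X = 0 := by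
  simp [th]

lemma KW_id {N m L : ℕ} (win : Fin N → ℕ) (hwin : ∀ i, win i < L) (cel : Fin N → Fin m) (u : Fin N → ℂ)
    (T T' : Finset (Fin N)) : KW win cel u L (fun _ => 0) (fun _ _ => 0) T T' = if T' = T then 1 else 0 := by
  simp only [KW, mul_zero, sub_zero, one_mul, add_zero, ite_self]
  by_cases h : T' = T
  · subst h
    simp
  · rw [if_neg h]
    by_contra h2
    apply h
    refine agree win hwin T T' fun l hl => ?_
    by_contra h3
    exact h2 (prod_eq_zero hl (if_neg h3))

set_option maxHeartbeats 4000000 in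
theorem t_SITE (hW : S_WIN) (hS : S_SEQ) (hM : S_MOM) (hT : S_TRIG) : S_SITE := by
  intro m hs ε hhs hε
  obtain ⟨κ, B0, υ0, hκ, hB0, hυ0, hW⟩ := hW m hs ε hhs hε
  refine ⟨B0, min υ0 1, hB0, lt_min hυ0 one_pos, ?_⟩
  intro N L k win cel u v t B D hL hwin hu ht hv hB hp hD htel
  have hpc : ∀ l < L, ∀ c, 0 ≤ pc win cel u l c ∧ pc win cel u l c ≤ 1 / 2 :=
    fun l hl c => ⟨pc_nonneg win cel u hu l c, hp l hl c⟩
  have key : ∀ l, ∃ a : Finset (Fin m) → ℝ, l < L → ∀ X : Finset (Fin m),
      (∀ z : ℂ, ‖z‖ = 1 → 0 ≤ th κ (fun x => cr t x z) (v l) hs (pc win cel u l) a X ∧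
        th κ (fun x => cr t x z) (v l) hs (pc win cel u l) a X ≤ 1 / 2 ∧
        0 ≤ κ * cr t (v l) z ∧ κ * cr t (v l) z ≤ 1 / 2) ∧
      v l * t * (B l * ((if X = ∅ then (∏ c, (1 - pc win cel u l c))⁻¹ else 0) - 1) - ((1 / 2 + ε) *
          (∑ A ∈ univ.erase (∅ : Finset (Fin m)), (∏ c ∈ A, pc win cel u l c / (1 - pc win cel u l c)) /
            (sz hs A : ℝ)) + ε) * B l ^ 2) ≤
        Real.circleAverage (fun w => Real.log ((1 - th κ (fun x => cr t x (psi (Real.exp (-t)) w)) (v l) hs
          (pc win cel u l) a X) / (1 - κ * cr t (v l) (psi (Real.exp (-t)) w)))) 0 1 := by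
    intro l
    by_cases hl : l < L
    · obtain ⟨a, ha⟩ := hW (v l) t (hv l hl).1 ht ((hv l hl).2.trans (min_le_left _ _)) (pc win cel u l)
        (hpc l hl) (B l) (hB l hl).1 (hB l hl).2
      exact ⟨a, fun _ => ha⟩
    · exact ⟨0, fun h => absurd h hl⟩
  choose a ha using key
  have hcont : ∀ x : ℕ, Continuous (fun θ : ℝ => cr t x (psi (Real.exp (-t)) (circleMap 0 1 θ))) := by
    have h0 := hv 0 (by omega)
    exact fun x => ((hT (v 0) t h0.1 ht (h0.2.trans (min_le_right _ _))).2 x).1
  have hnorm : ∀ w : ℂ, ‖w‖ = 1 → ‖psi (Real.exp (-t)) w‖ = 1 := (t_AV 0 t ht).1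
  have hcm : ∀ θ : ℝ, ‖circleMap 0 1 θ‖ = 1 := by intro θ; simp
  refine ⟨fun z => KW win cel (fun i => (u i : ℂ)) L (fun l => (κ : ℂ) * cz t (v l) z)
        (fun l X => th (κ : ℂ) (fun x => cz t x z) (v l) hs (fun c => (pc win cel u l c : ℂ))
          (fun A => (a l A : ℂ)) X),
    fun z => KW win cel u L (fun l => κ * cr t (v l) z)
        (fun l X => th κ (fun x => cr t x z) (v l) hs (pc win cel u l) (a l) X),
    fun z => PW win cel L (fun l => κ * cr t (v l) z)
        (fun l X => th κ (fun x => cr t x z) (v l) hs (pc win cel u l) (a l) X), ?_, ?_, ?_, ?_⟩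
  · intro T T'
    have h1 : (fun (l : ℕ) (X : Finset (Fin m)) => th (κ : ℂ) (fun x => cz t x ((Real.exp (-t) : ℝ) : ℂ)) (v l) hs
        (fun c => (pc win cel u l c : ℂ)) (fun A => (a l A : ℂ)) X) = fun _ _ => 0 := by
      funext l X
      simp only [cz_exp, th_zero]
    have h2 : (fun l : ℕ => (κ : ℂ) * cz t (v l) ((Real.exp (-t) : ℝ) : ℂ)) = fun _ => 0 := by
      funext l
      simp only [cz_exp, mul_zero]
    show KW win cel (fun i => (u i : ℂ)) L (fun l : ℕ => (κ : ℂ) * cz t (v l) ((Real.exp (-t) : ℝ) : ℂ))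
      (fun (l : ℕ) (X : Finset (Fin m)) => th (κ : ℂ) (fun x => cz t x ((Real.exp (-t) : ℝ) : ℂ)) (v l) hs
        (fun c => (pc win cel u l c : ℂ)) (fun A => (a l A : ℂ)) X) T T' = _
    rw [h1, h2]
    exact KW_id win hwin cel _ T T'
  · exact (hM N m L win cel u t κ v hs a hhs hwin).1
  · intro z hz
    refine ⟨fun T T' => ⟨?_, ?_⟩, ?_, ?_⟩
    · have h1 : (fun (l : ℕ) (X : Finset (Fin m)) => th (κ : ℂ) (fun x => cz t x z) (v l) hs
          (fun c => (pc win cel u l c : ℂ)) (fun A => (a l A : ℂ)) X) =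
          fun l X => ((th κ (fun x => cr t x z) (v l) hs (pc win cel u l) (a l) X : ℝ) : ℂ) := by
        funext l X
        rw [← th_cast]
        simp only [cz_cr t _ hz]
      have h2 : (fun l : ℕ => (κ : ℂ) * cz t (v l) z) = fun l => ((κ * cr t (v l) z : ℝ) : ℂ) := by
        funext l
        rw [cz_cr t (v l) hz]
        push_cast
        rfl
      show KW win cel (fun i => (u i : ℂ)) L (fun l : ℕ => (κ : ℂ) * cz t (v l) z)
        (fun (l : ℕ) (X : Finset (Fin m)) => th (κ : ℂ) (fun x => cz t x z) (v l) hs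
          (fun c => (pc win cel u l c : ℂ)) (fun A => (a l A : ℂ)) X) T T' = _
      rw [h1, h2]
      exact KW_cast win cel u L (fun l => κ * cr t (v l) z)
        (fun l X => th κ (fun x => cr t x z) (v l) hs (pc win cel u l) (a l) X) T T'
    · exact KW_nonneg win cel u L _ _ hu (fun l hl => by linarith [((ha l hl ∅).1 z hz).2.2.2])
        (fun l hl X => ((ha l hl X).1 z hz).1) T T'
    · intro T
      refine prod_pos fun l hl => ?_
      have hl' := mem_range.1 hl
      have h1 := (ha l hl' ((Tl win T l).image cel)).1 z hz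
      split_ifs
      · exact div_pos (by linarith) (by linarith)
      · exact one_pos
    · intro T'
      exact hS N m L k win cel u (fun l => κ * cr t (v l) z)
        (fun l X => th κ (fun x => cr t x z) (v l) hs (pc win cel u l) (a l) X) hwin hu
        (fun l hl X => ⟨((ha l hl X).1 z hz).1, ((ha l hl X).1 z hz).2.1⟩)
        (fun l _ => (hM N m L win cel u t κ v hs a hhs hwin).2 l (fun x => cr t x z)) T'
  · intro T
    have hposf : ∀ (l : ℕ), l < L → ∀ (w : ℂ), ‖w‖ = 1 → 0 < (1 - th κ (fun x => cr t x (psi (Real.exp (-t)) w))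
        (v l) hs (pc win cel u l) (a l) ((Tl win T l).image cel)) / (1 - κ * cr t (v l) (psi (Real.exp (-t)) w)) := by
      intro l hl w hw
      have h1 := (ha l hl ((Tl win T l).image cel)).1 _ (hnorm w hw)
      exact div_pos (by linarith) (by linarith)
    have hint : ∀ l ∈ range L, CircleIntegrable (fun w => Real.log (if (∀ i ∈ T, l ≤ win i) then
        (1 - th κ (fun x => cr t x (psi (Real.exp (-t)) w)) (v l) hs (pc win cel u l) (a l)
          ((Tl win T l).image cel)) / (1 - κ * cr t (v l) (psi (Real.exp (-t)) w)) else 1)) 0 1 := by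
      intro l hl
      have hl' := mem_range.1 hl
      by_cases hal : ∀ i ∈ T, l ≤ win i
      · simp only [if_pos hal]
        refine Continuous.intervalIntegrable ?_ _ _
        refine Continuous.log ?_ fun θ => (hposf l hl' _ (hcm θ)).ne'
        refine Continuous.div ?_ ?_ fun θ => ?_
        · refine continuous_const.sub ?_
          unfold th
          exact (continuous_const.mul (hcont _)).add (continuous_finsetSum _ fun A _ =>
            (continuous_const.mul (hcont _)).mul continuous_const)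
        · exact continuous_const.sub (continuous_const.mul (hcont _))
        · have h1 := (ha l hl' ∅).1 _ (hnorm _ (hcm θ))
          linarith
      · simp only [if_neg hal, Real.log_one]
        exact circleIntegrable_const _ _ _
    have hlog : ∀ w ∈ Metric.sphere (0 : ℂ) |1|, Real.log (PW win cel L (fun l => κ * cr t (v l) (psi (Real.exp (-t)) w))
        (fun l X => th κ (fun x => cr t x (psi (Real.exp (-t)) w)) (v l) hs (pc win cel u l) (a l) X) T) =
        ∑ l ∈ range L, Real.log (if (∀ i ∈ T, l ≤ win i) then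
        (1 - th κ (fun x => cr t x (psi (Real.exp (-t)) w)) (v l) hs (pc win cel u l) (a l)
          ((Tl win T l).image cel)) / (1 - κ * cr t (v l) (psi (Real.exp (-t)) w)) else 1) := by
      intro w hw
      unfold PW
      refine Real.log_prod fun l hl => ?_
      split_ifs
      · exact (hposf l (mem_range.1 hl) w (by simpa using hw)).ne'
      · exact one_ne_zero
    constructor
    · refine (circleIntegrable_congr (f₂ := fun w => ∑ l ∈ range L, Real.log (if (∀ i ∈ T, l ≤ win i) then
        (1 - th κ (fun x => cr t x (psi (Real.exp (-t)) w)) (v l) hs (pc win cel u l) (a l)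
          ((Tl win T l).image cel)) / (1 - κ * cr t (v l) (psi (Real.exp (-t)) w)) else 1)) hlog).2 ?_
      have := CircleIntegrable.sum (range L) hint
      convert this using 1
      funext w
      rw [Finset.sum_apply]
    · rw [Real.circleAverage_congr_sphere hlog, Real.circleAverage_fun_sum hint]
      have hlow := low win cel hL hwin (fun l => v l * t * (∏ c, (1 - pc win cel u l c))⁻¹ * B l)
        (fun l => v l * t * (B l + D * B l ^ 2)) (fun l hl => by
          have h1 := mul_le_mul_of_nonneg_right (htel l hl) ht.le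
          have e1 : ((v (l + 1) : ℝ) * (B (l + 1) + D * B (l + 1) ^ 2)) * t =
            v (l + 1) * t * (B (l + 1) + D * B (l + 1) ^ 2) := by ring
          have e2 : (∏ c, (1 - pc win cel u l c))⁻¹ * (v l * B l) * t =
            v l * t * (∏ c, (1 - pc win cel u l c))⁻¹ * B l := by ring
          rw [e1, e2] at h1
          exact h1) T
        (fun l => Real.circleAverage (fun w => Real.log (if (∀ i ∈ T, l ≤ win i) then
        (1 - th κ (fun x => cr t x (psi (Real.exp (-t)) w)) (v l) hs (pc win cel u l) (a l)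
          ((Tl win T l).image cel)) / (1 - κ * cr t (v l) (psi (Real.exp (-t)) w)) else 1)) 0 1) ?_ ?_
      · exact hlow
      · intro l hl hal
        simp only [if_pos hal]
        refine le_trans ?_ (ha l hl ((Tl win T l).image cel)).2
        have hvt : 0 ≤ (v l : ℝ) * t := by positivity
        have hB2 : 0 ≤ B l ^ 2 := sq_nonneg _
        have hDl := mul_le_mul_of_nonneg_right (hD l hl) hB2
        have := mul_le_mul_of_nonneg_left hDl hvt
        split_ifs
        · nlinarith
        · nlinarith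
      · intro l hl hal
        simp only [if_neg hal, Real.log_one]
        rw [Real.circleAverage_const]

end Pool.Agent.U692.NWS
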